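import Mathlib

open Finset Filter Topology

namespace Pool.Agent.Results.MP_04502c_nt.Decay

/-- `a` is the almost Golomb sequence of order `r`; the value at `0` is `0`, so truncated
subtraction realises the convention for nonpositive indices. -/
def IsAG (r : ℕ) (a : ℕ → ℕ) : Prop :=
  a 0 = 0 ∧ (∀ n, 1 ≤ n → 0 < a n) ∧ (∀ n, 1 ≤ n → a n ≤ a (n + 1)) ∧
    (∀ n, 1 ≤ n → a (∑ i ∈ range r, a (n - i)) = n) ∧
    (∀ n, 2 ≤ n → ∀ m, a (n - 1) ≤ m → m < a n →
      a (m + ∑ i ∈ range (r - 1), a (n - 1 - i)) ≠ n)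

section
variable {r : ℕ} {a : ℕ → ℕ} (h : IsAG r a) (hr : 2 ≤ r)

include h in
lemma mono : Monotone a := by
  apply monotone_nat_of_le_succ
  intro n
  rcases Nat.eq_zero_or_pos n with rfl | hn
  · rw [h.1]; exact Nat.zero_le _
  · exact h.2.2.1 n hn

include h hr in
lemma le_self (n : ℕ) : a n ≤ n := by
  rcases Nat.eq_zero_or_pos n with rfl | hn
  · rw [h.1]
  by_contra hc
  have h1 : a (n - 0) ≤ ∑ i ∈ range r, a (n - i) :=
    single_le_sum (f := fun i => a (n - i)) (fun _ _ => Nat.zero_le _) (mem_range.2 (by omega))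
  have h2 := h.2.2.2.1 n hn
  have h3 := mono h (show n ≤ ∑ i ∈ range r, a (n - i) by simp at h1; omega)
  omega

lemma sum_sub_le (n r : ℕ) : ∑ i ∈ range r, (n - i) ≤ min r n * n := by
  induction r with
  | zero => simp
  | succ r ih =>
    rw [sum_range_succ]
    by_cases hc : r < n
    · rw [min_eq_left hc.le] at ih
      rw [min_eq_left (by omega), add_mul]
      omega
    · rw [min_eq_right (by omega)] at ih ⊢
      omega

include h hr in
lemma sq_ge (M : ℕ) (hM : 1 ≤ M) : M ≤ a (M * M) := by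
  have h1 : ∑ i ∈ range r, a (M - i) ≤ M * M := by
    refine (sum_le_sum fun i _ => le_self h hr (M - i)).trans ((sum_sub_le M r).trans ?_)
    exact Nat.mul_le_mul_right _ (min_le_right _ _)
  have := mono h h1
  rwa [h.2.2.2.1 M hM] at this

include h in
lemma lo (x t : ℕ) (hx : 2 ≤ a x) (ht : t ≤ r) : t * a (a x - t) < x := by
  have h1 := h.2.2.2.1 (a x - 1) (by omega)
  have h2 : ∑ i ∈ range r, a (a x - 1 - i) < x := by
    by_contra hc
    have := mono h (not_lt.1 hc)
    omega
  refine lt_of_le_of_lt ?_ h2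
  calc t * a (a x - t) = ∑ _i ∈ range t, a (a x - t) := by simp
    _ ≤ ∑ i ∈ range t, a (a x - 1 - i) := by
        apply sum_le_sum
        intro i hi
        have := mem_range.1 hi
        exact mono h (by omega)
    _ ≤ _ := sum_le_sum_of_subset (range_mono ht)

include h in
lemma hi (y : ℕ) : y < r * a (a y + 1) := by
  have h1 := h.2.2.2.1 (a y + 1) (by omega)
  have h2 : y < ∑ i ∈ range r, a (a y + 1 - i) := by
    by_contra hc
    have := mono h (not_lt.1 hc)
    omega
  refine lt_of_lt_of_le h2 ?_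
  calc ∑ i ∈ range r, a (a y + 1 - i) ≤ ∑ _i ∈ range r, a (a y + 1) :=
        sum_le_sum fun i _ => mono h (by omega)
    _ = _ := by simp

include h hr in
lemma main (K Z : ℕ) (hK : 2 ≤ K) (hZ : Z = K * (72 * (K * K) + 4)) (hrZ : Z * Z ≤ r) (x : ℕ) :
    Z ≤ x → K * a x + 4 * K ≤ 2 * x := by
  have hZ2 : 2 ≤ Z := by rw [hZ]; nlinarith
  induction x using Nat.strong_induction_on with
  | _ x ih =>
    intro hx
    by_cases hc : Z ≤ a (a x - r) + 1
    · have hn : r < a x := by
        by_contra h2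
        rw [Nat.sub_eq_zero_of_le (not_lt.1 h2), h.1] at hc
        omega
      have l1 := lo h x r (by omega) le_rfl
      have l2 := hi h (a x - r)
      set m := a (a x - r) with hm
      have l3 : m + 1 < x := by nlinarith
      have l4 := ih (m + 1) l3 hc
      have l5 : a x < r * a (m + 1) + r := by omega
      have l6 : K * a x ≤ r * (K * a (m + 1)) + r * K := by nlinarith
      have l7 : r * (K * a (m + 1)) + r * (4 * K) ≤ r * (2 * (m + 1)) := by
        rw [← mul_add]; exact Nat.mul_le_mul_left _ l4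
      nlinarith
    · have h1 : a x - r < Z * Z := by
        by_contra h2
        have := mono h (not_lt.1 h2)
        have := sq_ge h hr Z (by omega)
        omega
      by_cases hN : a x < 72 * (K * K)
      · nlinarith
      · have hK2 : 4 ≤ K * K := by nlinarith
        have l1 := lo h x (a x / 2) (by omega) (by omega)
        have l2 : 6 * K ≤ a (a x - a x / 2) := by
          refine (sq_ge h hr (6 * K) (by omega)).trans (mono h ?_)
          have : 6 * K * (6 * K) = 36 * (K * K) := by ring
          omega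
        have l3 : a x ≤ 2 * (a x / 2) + 1 := by omega
        have l4 : 2 ≤ a x / 2 := by omega
        set u := a x / 2
        have l5 : u * (6 * K) ≤ x := le_trans (Nat.mul_le_mul_left _ l2) l1.le
        nlinarith

end

theorem result (A : ℕ → ℕ → ℕ) (hA : ∀ r, 2 ≤ r → IsAG r (A r)) :
    Tendsto (fun r => limsup (fun n : ℕ => (A r n : ℝ) / n) atTop) atTop (𝓝 0) := by
  rw [Metric.tendsto_atTop]
  intro ε hε
  obtain ⟨K0, hK0⟩ := exists_nat_gt (2 / ε)
  set K := K0 + 2 with hK
  set Z := K * (72 * (K * K) + 4) with hZ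
  refine ⟨Z * Z + 2, fun r hr => ?_⟩
  have hr2 : 2 ≤ r := by omega
  have hKpos : (0 : ℝ) < K := by positivity
  have hev : ∀ᶠ n : ℕ in atTop, (A r n : ℝ) / n ≤ 2 / K := by
    filter_upwards [eventually_ge_atTop (Z + 1)] with n hn
    have h1 := main (hA r hr2) hr2 K Z (by omega) hZ (by omega) n (by omega)
    have h2 : (K : ℝ) * A r n + 4 * K ≤ 2 * n := by exact_mod_cast h1
    have hn0 : (0 : ℝ) < n := by exact_mod_cast (show 0 < n by omega)
    rw [div_le_div_iff₀ hn0 hKpos]
    nlinarith
  have hup : limsup (fun n : ℕ => (A r n : ℝ) / n) atTop ≤ 2 / K :=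
    limsup_le_of_le (isCoboundedUnder_le_of_le atTop (x := 0) (fun n => by positivity)) hev
  have hlo : 0 ≤ limsup (fun n : ℕ => (A r n : ℝ) / n) atTop := by
    apply le_limsup_of_frequently_le
    · exact Frequently.of_forall fun n => by positivity
    · exact ⟨2 / K, hev⟩
  rw [Real.dist_eq, sub_zero, abs_of_nonneg hlo]
  refine lt_of_le_of_lt hup ?_
  rw [div_lt_iff₀ hKpos]
  rw [div_lt_iff₀ hε] at hK0
  have : (K : ℝ) = K0 + 2 := by rw [hK]; push_cast; ring
  nlinarith

end Pool.Agent.Results.MP_04502c_nt.Decay
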